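import Mathlib

namespace Pool.Agent.H.MP_c81765_co

open MeasureTheory Set Matrix Filter Topology

def Sx (d : ℕ) : Set (Fin d → ℝ) := {x | (∀ i, 0 < x i) ∧ ∑ i, x i < 1}

lemma Sx_open (d : ℕ) : IsOpen (Sx d) := by
  simp only [Sx, setOf_and, setOf_forall]
  exact (isOpen_iInter_of_finite fun i => isOpen_lt continuous_const (continuous_apply i)).inter
    (isOpen_lt (by fun_prop) continuous_const)

lemma vol_Sx (d : ℕ) : volume.real (Sx d) = 1 / d.factorial := by
  let T : (Fin d → ℤˣ) → Set (Fin d → ℝ) := fun ε => (fun x i => ((ε i : ℤ) : ℝ) * x i) ⁻¹' Sx d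
  have hm : ∀ ε, MeasurableSet (T ε) := fun ε =>
    ((Sx_open d).preimage (by fun_prop)).measurableSet
  have h1 : ∀ ε, volume (T ε) = volume (Sx d) := fun ε =>
    (volume_preserving_pi (f := fun i (x : ℝ) => ((ε i : ℤ) : ℝ) * x) fun i => by
      rcases Int.units_eq_one_or (ε i) with h | h <;> simp [h]
      exacts [MeasurePreserving.id _, Measure.measurePreserving_neg _]).measure_preimage
      (Sx_open d).measurableSet.nullMeasurableSet
  have h2 : (⋃ ε, T ε : Set _) =ᵐ[volume] {x : Fin d → ℝ | ∑ i, |x i| ^ (1 : ℝ) < 1} := by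
    filter_upwards [ae_all_iff.2 fun i => Measure.ae_eval_ne (fun _ : Fin d => volume) i (0 : ℝ)]
      with x hx
    simp only [Real.rpow_one, eq_iff_iff]
    change x ∈ ⋃ ε, T ε ↔ ∑ i, |x i| < 1
    simp only [mem_iUnion, T, mem_preimage, Sx, mem_setOf_eq]
    refine ⟨fun ⟨ε, a, b⟩ => lt_of_eq_of_lt (Finset.sum_congr rfl fun i _ => ?_) b, fun h => ?_⟩
    · rw [← abs_of_pos (a i), abs_mul]
      rcases Int.units_eq_one_or (ε i) with h | h <;> simp [h]
    · have e : ∀ i, (((if 0 < x i then 1 else -1 : ℤˣ) : ℤ) : ℝ) * x i = |x i| := fun i => by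
        split_ifs with c
        · simp [abs_of_pos c]
        · simp [abs_of_nonpos (not_lt.1 c)]
      exact ⟨fun i => if 0 < x i then 1 else -1, fun i => e i ▸ abs_pos.2 (hx i), by simpa [e]⟩
  have h3 : Pairwise (Function.onFun Disjoint T) := fun ε δ h => disjoint_left.2 fun x a b =>
    h (funext fun i => by
      have a := a.1 i
      have b := b.1 i
      rcases Int.units_eq_one_or (ε i) with h | h <;> rcases Int.units_eq_one_or (δ i) with k | k <;>
        simp [h, k] at a b ⊢ <;> linarith)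
  have h4 := measure_iUnion (μ := volume) h3 hm
  rw [measure_congr h2, volume_sum_rpow_lt_one _ le_rfl] at h4
  simp only [h1, tsum_fintype, Finset.sum_const, Finset.card_univ, Fintype.card_pi,
    Fintype.card_units_int, Finset.prod_const, Fintype.card_fin, div_one, nsmul_eq_mul,
    Real.Gamma_nat_eq_factorial, one_add_one_eq_two, Real.Gamma_two] at h4
  have := congrArg ENNReal.toReal h4
  rw [ENNReal.toReal_ofReal (by positivity), ENNReal.toReal_mul] at this
  simp only [measureReal_def]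
  rw [eq_div_iff (by positivity)]
  rw [div_eq_iff (by positivity)] at this
  simp at this
  nlinarith [pow_pos (two_pos (α := ℝ)) d]

variable {d s : ℕ} (q : Fin s → Fin d → ℝ)

def hat (x : Fin d → ℝ) : Fin (d + 1) → ℝ := Fin.cons 1 x

def PM (v : Fin (d + 1) → Fin s) : Matrix (Fin (d + 1)) (Fin (d + 1)) ℝ :=
  of fun i j => hat (q (v j)) i

def DM (v : Fin (d + 1) → Fin s) : Matrix (Fin d) (Fin d) ℝ :=
  of fun i j => q (v j.succ) i - q (v 0) i

def Op (v : Fin (d + 1) → Fin s) : Set (Fin d → ℝ) :=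
  {x | ∃ l : Fin (d + 1) → ℝ, (∀ i, 0 < l i) ∧ PM q v *ᵥ l = hat x}

lemma Op_eq (v : Fin (d + 1) → Fin s) :
    Op q v = (fun x => q (v 0) + x) '' (toLin' (DM q v) '' Sx d) := by
  ext x
  rw [image_image]
  simp only [Op, mem_setOf_eq, mem_image, Sx, funext_iff,
    Fin.forall_fin_succ, PM, DM, hat, mulVec, dotProduct, of_apply, Fin.cons_zero, Fin.cons_succ,
    Fin.sum_univ_succ, toLin'_apply, Pi.add_apply, one_mul, sub_mul, Finset.sum_sub_distrib,
    ← Finset.mul_sum]
  constructor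
  · rintro ⟨l, ⟨a, b⟩, c, e⟩
    exact ⟨fun i => l i.succ, ⟨b, by linarith⟩, fun i => by
      linear_combination e i - q (v 0) i * c⟩
  · rintro ⟨y, ⟨a, b⟩, c⟩
    exact ⟨Fin.cons (1 - ∑ i, y i) y, ⟨by simpa using b, a⟩, by simp, fun i => by
      simp only [Fin.cons_zero, Fin.cons_succ]; linear_combination c i⟩

lemma vol_Op (v : Fin (d + 1) → Fin s) : volume.real (Op q v) = |(DM q v).det| / d.factorial := by
  rw [Op_eq, image_add_left, measureReal_def, measure_preimage_add,
    Measure.addHaar_image_linearMap, LinearMap.det_toLin', ENNReal.toReal_mul,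
    ENNReal.toReal_ofReal (abs_nonneg _), ← measureReal_def, vol_Sx, mul_one_div]

lemma col (v : Fin (d + 1) → Fin s) (l : Fin (d + 1) → ℝ) :
    PM q v *ᵥ l = ∑ j, l j • hat (q (v j)) := by
  ext i; simp [PM, mulVec, dotProduct, mul_comm]

lemma mem_hull {x : Fin d → ℝ} : x ∈ convexHull ℝ (range q) ↔
    ∃ l : Fin s → ℝ, (∀ i, 0 ≤ l i) ∧ ∑ j, l j • hat (q j) = hat x := by
  have e : ∀ l : Fin s → ℝ, ∑ j, l j • hat (q j) = hat x ↔ ∑ j, l j = 1 ∧ ∑ j, l j • q j = x :=
    fun l => by simp [funext_iff, Fin.forall_fin_succ, hat, Finset.sum_apply]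
  simp only [e]
  refine ⟨fun h => ?_, fun ⟨l, a, b, c⟩ => c ▸ (convex_convexHull ℝ _).sum_mem (fun i _ => a i) b
    fun i _ => subset_convexHull _ _ ⟨i, rfl⟩⟩
  refine convexHull_min (t := {x | ∃ l : Fin s → ℝ, (∀ i, 0 ≤ l i) ∧ ∑ j, l j = 1 ∧
    ∑ j, l j • q j = x}) ?_ ?_ h
  · rintro _ ⟨i, rfl⟩
    exact ⟨Pi.single i 1, fun j => by simp [Pi.single_apply]; positivity, by simp,
      by simp [Pi.single_apply]⟩
  · rintro _ ⟨l, a, b, rfl⟩ _ ⟨m, a', b', rfl⟩ u w hu hw h
    exact ⟨u • l + w • m, fun i => add_nonneg (mul_nonneg hu (a i)) (mul_nonneg hw (a' i)),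
      by simp [Finset.sum_add_distrib, ← Finset.mul_sum, b, b', h],
      by simp [Finset.sum_add_distrib, add_smul, Finset.smul_sum, mul_smul]⟩

variable (ω : Fin s → ℝ)

noncomputable def ell (v : Fin (d + 1) → Fin s) (y : Fin (d + 1) → ℝ) : ℝ :=
  (ω ∘ v) ⬝ᵥ ((PM q v)⁻¹ *ᵥ y)

def Fac (v : Fin (d + 1) → Fin s) : Prop :=
  StrictMono v ∧ IsUnit (PM q v).det ∧ ∀ j ∉ range v, ell q ω v (hat (q j)) < ω j

lemma ell_P {v : Fin (d + 1) → Fin s} (h : IsUnit (PM q v).det) (l : Fin (d + 1) → ℝ) :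
    ell q ω v (PM q v *ᵥ l) = ∑ j, l j * ω (v j) := by
  rw [ell, mulVec_mulVec, nonsing_inv_mul _ h, one_mulVec]
  simp [dotProduct, mul_comm]

lemma ell_le {v w : Fin (d + 1) → Fin s} (h : Fac q ω v) {l : Fin (d + 1) → ℝ}
    (hl : ∀ i, 0 < l i) : ell q ω v (PM q w *ᵥ l) ≤ ∑ j, l j * ω (w j) ∧
      (¬ range w ⊆ range v → ell q ω v (PM q w *ᵥ l) < ∑ j, l j * ω (w j)) := by
  have e : ell q ω v (PM q w *ᵥ l) = ∑ j, l j * ell q ω v (hat (q (w j))) := by
    simp [col, ell, mulVec_sum, dotProduct_sum, mulVec_smul]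
  have a : ∀ j, ell q ω v (hat (q j)) ≤ ω j := fun j => by
    by_cases c : j ∈ range v
    · obtain ⟨i, rfl⟩ := c
      have := ell_P q ω h.2.1 (Pi.single i 1)
      simp only [col, Pi.single_apply, ite_smul, one_smul, zero_smul, Finset.sum_ite_eq',
        Finset.mem_univ, if_true, ite_mul, one_mul, zero_mul] at this
      exact this.le
    · exact (h.2.2 j c).le
  rw [e]
  refine ⟨Finset.sum_le_sum fun j _ => mul_le_mul_of_nonneg_left (a _) (hl j).le, fun c => ?_⟩
  obtain ⟨_, ⟨j, rfl⟩, c⟩ := not_subset.1 c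
  exact Finset.sum_lt_sum (fun j _ => mul_le_mul_of_nonneg_left (a _) (hl j).le)
    ⟨j, Finset.mem_univ _, mul_lt_mul_of_pos_left (h.2.2 _ c) (hl j)⟩

lemma disj {v w : Fin (d + 1) → Fin s} (hv : Fac q ω v) (hw : Fac q ω w) (h : v ≠ w) :
    Disjoint (Op q v) (Op q w) := disjoint_left.2 fun x ⟨l, a, b⟩ ⟨m, a', b'⟩ => h <| by
  have c := ell_le q ω (w := w) hv a'
  have c' := ell_le q ω (w := v) hw a
  rw [b', ← b, ell_P q ω hv.2.1] at c
  rw [b, ← b', ell_P q ω hw.2.1] at c'
  exact (hv.1.range_inj hw.1).1 (subset_antisymm (by_contra fun k => by linarith [c'.2 k, c.1])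
    (by_contra fun k => by linarith [c.2 k, c'.1]))

lemma generic : ∃ ω : Fin s → ℝ, ∀ v : Fin (d + 1) → Fin s, ∀ j ∉ range v,
    ell q ω v (hat (q j)) ≠ ω j := by
  by_contra! h
  let f : (Fin (d + 1) → Fin s) → Fin s → (Fin s → ℝ) →ₗ[ℝ] ℝ := fun v j =>
    ∑ i, ((PM q v)⁻¹ *ᵥ hat (q j)) i • LinearMap.proj (v i) - LinearMap.proj j
  obtain ⟨⟨⟨v, j⟩, hj⟩, e⟩ := Subspace.exists_eq_top_of_iUnion_eq_univ
    (p := fun z : {z : (Fin (d + 1) → Fin s) × Fin s // z.2 ∉ range z.1} =>
      LinearMap.ker (f z.1.1 z.1.2)) (eq_univ_of_forall fun ω => by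
    obtain ⟨v, j, a, b⟩ := h ω
    refine mem_iUnion.2 ⟨⟨(v, j), a⟩, ?_⟩
    simpa [f, ell, dotProduct, mul_comm, sub_eq_zero] using b)
  have : Pi.single j (1 : ℝ) ∈ LinearMap.ker (f v j) := e ▸ Submodule.mem_top
  simp [f, Pi.single_eq_of_ne fun e : v _ = j => hj ⟨_, e⟩] at this

lemma cover (hω : ∀ v : Fin (d + 1) → Fin s, ∀ j ∉ range v, ell q ω v (hat (q j)) ≠ ω j)
    {x : Fin d → ℝ} (hx : x ∈ convexHull ℝ (range q))
    (hN : ∀ T : Finset (Fin s), T.card ≤ d → x ∉ affineSpan ℝ (q '' T)) :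
    ∃ v, Fac q ω v ∧ x ∈ Op q v := by
  classical
  let L := {l : Fin s → ℝ | (∀ i, 0 ≤ l i) ∧ ∑ j, l j • hat (q j) = hat x}
  have s1 : ∀ l ∈ L, ∑ j, l j = 1 := fun l h => by
    simpa [hat, Finset.sum_apply] using congrFun h.2 0
  have c : IsCompact L := (isCompact_stdSimplex ℝ (Fin s)).of_isClosed_subset (by
    simp only [L, setOf_and, setOf_forall]
    exact (isClosed_iInter fun i => isClosed_le continuous_const (continuous_apply i)).inter
      (isClosed_eq (by fun_prop) continuous_const)) fun l h => ⟨h.1, s1 l h⟩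
  obtain ⟨l0, h0, m0⟩ := c.exists_isMinOn ((mem_hull q).1 hx) (f := fun l => ω ⬝ᵥ l) (by fun_prop)
  obtain ⟨l, ⟨hl, e0⟩, m⟩ := exists_minimalFor_of_wellFoundedLT
    (fun l => l ∈ L ∧ ω ⬝ᵥ l = ω ⬝ᵥ l0) (fun l => Finset.univ.filter fun j => l j ≠ 0) ⟨l0, h0, rfl⟩
  have ind : ∀ μ : Fin s → ℝ, (∀ j, l j = 0 → μ j = 0) → ∑ j, μ j • hat (q j) = 0 → μ = 0 := by
    intro μ a b
    wlog h : ω ⬝ᵥ μ ≤ 0 generalizing μ
    · exact neg_eq_zero.1 (this (-μ) (by simpa using a) (by simpa using b)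
        (by rw [dotProduct_neg]; linarith))
    by_contra n
    have z : ∑ j, μ j = 0 := by simpa [hat, Finset.sum_apply] using congrFun b 0
    obtain ⟨j, hj, mj⟩ := (Finset.univ.filter fun j => μ j < 0).exists_min_image
      (fun j => l j / -μ j) (by
        by_contra! k
        exact n (funext fun j => (Finset.sum_eq_zero_iff_of_nonneg fun j _ => not_lt.1 fun c =>
          Finset.notMem_empty j (k ▸ by simpa using c)).1 z j (Finset.mem_univ _)))
    simp only [Finset.mem_filter, Finset.mem_univ, true_and] at hj mj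
    have t0 : 0 ≤ l j / -μ j := div_nonneg (hl.1 j) (by linarith)
    have h1 : l + (l j / -μ j) • μ ∈ L := ⟨fun i => by
      rcases lt_or_ge (μ i) 0 with c | c
      · have := (le_div_iff₀ (by linarith)).1 (mj i c)
        simp only [Pi.add_apply, Pi.smul_apply, smul_eq_mul]; linarith
      · exact add_nonneg (hl.1 i) (mul_nonneg t0 c), by
      simp only [Pi.add_apply, Pi.smul_apply, add_smul, Finset.sum_add_distrib, smul_assoc,
        ← Finset.smul_sum, b, smul_zero, add_zero, hl.2]⟩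
    have := @m (l + (l j / -μ j) • μ) ⟨h1, le_antisymm (by
      rw [dotProduct_add, dotProduct_smul, smul_eq_mul, e0]; nlinarith) (m0 h1)⟩
      (fun i => by
        simp only [Finset.mem_filter, Finset.mem_univ, true_and]
        exact mt fun c => by simp [c, a i c]) j (by simpa using fun c => hj.ne (a j c))
    simp only [Finset.mem_filter, Finset.mem_univ, true_and, Pi.add_apply, Pi.smul_apply,
      smul_eq_mul] at this
    exact this (by have := hj.ne; field_simp; ring)
  obtain ⟨k, v, hv, hk, r⟩ : ∃ k, ∃ v : Fin k → Fin s, StrictMono v ∧ d < k ∧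
      ∀ i, i ∈ range v ↔ l i ≠ 0 := by
    refine ⟨_, (Finset.univ.filter fun j => l j ≠ 0).orderEmbOfFin rfl, OrderEmbedding.strictMono _,
      not_le.1 fun c => hN _ c (convexHull_subset_affineSpan _ ?_), by simp⟩
    have : x = ∑ j ∈ Finset.univ.filter fun j => l j ≠ 0, l j • q j := by
      rw [Finset.sum_filter_of_ne fun j _ => left_ne_zero_of_smul]
      ext i; simpa [hat, Finset.sum_apply] using (congrFun hl.2 i.succ).symm
    rw [this]
    exact (convex_convexHull ℝ _).sum_mem (fun i _ => hl.1 i)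
      (by rw [Finset.sum_filter_ne_zero, s1 l hl]) fun i hi => subset_convexHull _ _ ⟨i, hi, rfl⟩
  let ex : (Fin k → ℝ) → Fin s → ℝ := fun c => ∑ j, c j • Pi.single (v j) 1
  have E1 : ∀ c, ∑ i, ex c i • hat (q i) = ∑ j, c j • hat (q (v j)) := fun c => by
    simp only [ex, Finset.sum_apply, Finset.sum_smul]
    rw [Finset.sum_comm]
    simp [Pi.single_apply]
  have E2 : ∀ c j, ex c (v j) = c j := fun c j => by
    simp [ex, Finset.sum_apply, Pi.single_apply, hv.injective.eq_iff]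
  have E3 : ∀ c, ∀ i ∉ range v, ex c i = 0 := fun c i h => by
    simp [ex, Finset.sum_apply, Pi.single_eq_of_ne fun e : i = v _ => h ⟨_, e.symm⟩]
  have E4 : ∀ c, ω ⬝ᵥ ex c = (ω ∘ v) ⬝ᵥ c := fun c => by
    simp only [ex, dotProduct_sum, dotProduct_smul, dotProduct_single]
    simp [dotProduct, mul_comm]
  have li : ∀ c : Fin k → ℝ, ∑ j, c j • hat (q (v j)) = 0 → ∀ j, c j = 0 := fun c h j => by
    rw [← E2 c j, ind (ex c) (fun i hi => E3 c i (by simp [r, hi])) (E1 c ▸ h)]; rfl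
  obtain rfl : k = d + 1 := by
    have := (Fintype.linearIndependent_iff.2 li).fintype_card_le_finrank
    simp only [Fintype.card_fin, Module.finrank_fintype_fun_eq_card] at this
    omega
  have u : IsUnit (PM q v).det := isUnit_iff_ne_zero.2 fun e => by
    obtain ⟨c, a, b⟩ := exists_mulVec_eq_zero_iff.2 e
    exact a (funext (li c (col q v c ▸ b)))
  have lp : ∀ i, 0 < l (v i) := fun i => (hl.1 _).lt_of_ne' ((r _).1 ⟨i, rfl⟩)
  refine ⟨v, ⟨hv, u, fun j hj => lt_of_le_of_ne ?_ (hω v j hj)⟩, l ∘ v, lp, ?_⟩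
  · set c := (PM q v)⁻¹ *ᵥ hat (q j) with hc
    have pc : ∑ i, c i • hat (q (v i)) = hat (q j) := by
      rw [← col, hc, mulVec_mulVec, mul_nonsing_inv _ u, one_mulVec]
    obtain ⟨ε, a, b⟩ := ((eventually_all.2 fun i => ((show Continuous fun ε : ℝ => ε * c i by
      fun_prop).tendsto' 0 0 (zero_mul _)).eventually (gt_mem_nhds (lp i))).filter_mono
      (nhdsWithin_le_nhds (s := Ioi 0))).and self_mem_nhdsWithin |>.exists
    have := m0 (a := l + ε • (Pi.single j 1 - ex c)) ⟨fun i => by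
      simp only [Pi.add_apply, Pi.smul_apply, Pi.sub_apply, smul_eq_mul]
      by_cases h : i ∈ range v
      · obtain ⟨i, rfl⟩ := h
        rw [E2, Pi.single_eq_of_ne fun e => hj ⟨i, e⟩]; linarith [a i]
      · rw [E3 c i h, sub_zero]
        exact add_nonneg (hl.1 i) (mul_nonneg (le_of_lt b) (by simp [Pi.single_apply]; positivity)), by
      simp only [Pi.add_apply, Pi.smul_apply, Pi.sub_apply, add_smul, sub_smul, smul_assoc,
        Finset.sum_add_distrib, ← Finset.smul_sum, Finset.sum_sub_distrib, E1, pc, hl.2]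
      simp [Pi.single_apply]⟩
    simp only [mem_setOf_eq, dotProduct_add, dotProduct_smul, dotProduct_sub, E4, e0, smul_eq_mul,
      dotProduct_single, mul_one] at this
    change (ω ∘ v) ⬝ᵥ c ≤ _
    nlinarith [show 0 < ε from b]
  · rw [col, ← hl.2]
    refine (E1 (l ∘ v)).symm.trans (Finset.sum_congr rfl fun i _ => congrArg (· • _) ?_)
    by_cases h : i ∈ range v
    · obtain ⟨i, rfl⟩ := h
      exact E2 _ i
    · rw [E3 _ i h, not_not.1 (mt (r i).2 h)]

theorem triang : ∃ B : Finset (Fin (d + 1) → Fin s),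
    d.factorial * volume.real (convexHull ℝ (range q)) = ∑ v ∈ B, |(DM q v).det| := by
  classical
  obtain ⟨ω, hω⟩ := generic q
  refine ⟨Finset.univ.filter (Fac q ω), ?_⟩
  have sub : ∀ v, Op q v ⊆ convexHull ℝ (range q) := fun v x ⟨l, a, b⟩ =>
    convexHull_mono (range_comp_subset_range v q)
      ((mem_hull (q ∘ v)).2 ⟨l, fun i => (a i).le, (col q v l).symm.trans b⟩)
  have fin : volume (convexHull ℝ (range q)) ≠ ⊤ :=
    ((finite_range q).isCompact_convexHull ℝ).measure_lt_top.ne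
  have nt : ∀ T : Finset (Fin s), T.card ≤ d → affineSpan ℝ (q '' T) ≠ ⊤ := fun T hT e => by
    rcases T.eq_empty_or_nonempty with rfl | h
    · simp at e
    have := finrank_vectorSpan_image_finset_le ℝ q T (Nat.succ_pred_eq_of_pos h.card_pos).symm
    rw [Finset.coe_image, ← direction_affineSpan, e, AffineSubspace.direction_top] at this
    have := h.card_pos
    simp only [finrank_top, Module.finrank_fintype_fun_eq_card, Fintype.card_fin,
      Nat.pred_eq_sub_one] at *
    omega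
  have e : convexHull ℝ (range q) =ᵐ[volume]
      (⋃ v ∈ Finset.univ.filter (Fac q ω), Op q v : Set _) := by
    filter_upwards [ae_all_iff.2 fun T : {T : Finset (Fin s) // T.card ≤ d} =>
      measure_eq_zero_iff_ae_notMem.1 (Measure.addHaar_affineSubspace volume
        (affineSpan ℝ (q '' T.1)) (nt _ T.2))] with x hx
    · refine propext ⟨fun h => ?_, fun h => ?_⟩
      · obtain ⟨v, a, b⟩ := cover q ω hω h fun T c => hx ⟨T, c⟩
        exact mem_biUnion (by simpa using a) b
      · obtain ⟨v, -, b⟩ := mem_iUnion₂.1 h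
        exact sub v b
  rw [measureReal_congr e, measureReal_biUnion_finset₀ (fun v a w b h => (disj q ω
    (by simpa using a) (by simpa using b) h).aedisjoint) (fun v _ => ?_) fun v _ => ne_top_of_le_ne_top fin (measure_mono (sub v)),
    Finset.mul_sum]
  · exact Finset.sum_congr rfl fun v _ => by rw [vol_Op]; field_simp
  · refine Convex.nullMeasurableSet _ ?_
    rintro x ⟨l, a, b⟩ y ⟨m, a', b'⟩ u w hu hw h
    refine ⟨u • l + w • m, fun i => convex_pi (s := univ) (fun _ _ => convex_Ioi (0 : ℝ))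
      (fun i _ => a i) (fun i _ => a' i) hu hw h i trivial, ?_⟩
    rw [mulVec_add, mulVec_smul, mulVec_smul, b, b']
    ext i
    refine Fin.cases ?_ (fun i => ?_) i <;> simp [hat, h]

end Pool.Agent.H.MP_c81765_co
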