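import Mathlib

namespace Pool.Agent.H.MP_c81765_co

open Matrix Polynomial Set

lemma det_pos {κ : Type} [Fintype κ] [DecidableEq κ] (B : Matrix κ κ ℝ) {k : ℕ} (hk : 0 < k)
    (h : B ^ k = 1) (h1 : (1 - B).det ≠ 0) : 0 < (1 - B).det := by
  by_contra c
  obtain ⟨s, hs, e⟩ := intermediate_value_Icc' (f := fun s : ℝ => (1 - s • B).det) zero_le_one
    (by fun_prop) (show (0 : ℝ) ∈ _ from ⟨by simpa using c, by simp⟩)
  obtain ⟨w, w0, hw⟩ := exists_mulVec_eq_zero_iff.2 e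
  rw [sub_mulVec, one_mulVec, sub_eq_zero] at hw
  have : ∀ j : ℕ, (s • B) ^ j *ᵥ w = w := fun j => by
    induction j with
    | zero => simp
    | succ j ih => rw [pow_succ, ← mulVec_mulVec, ← hw, ih]
  have := this k
  rw [_root_.smul_pow, h, smul_mulVec, one_mulVec] at this
  have := smul_left_injective ℝ w0 (this.trans (one_smul ℝ w).symm)
  rw [pow_eq_one_iff_of_nonneg hs.1 hk.ne'] at this
  exact h1 (by simpa [this] using e)

theorem block {n k : ℕ} (A : Matrix (Fin n) (Fin n) ℤ) (hk : 0 < k) (hA : A ^ k = 1) :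
    ∃ (d : ℕ) (κ : Type) (_ : Fintype κ) (_ : DecidableEq κ) (U1 : Matrix (Fin n) (Fin d) ℤ)
      (U2 : Matrix (Fin n) κ ℤ) (V1 : Matrix (Fin d) (Fin n) ℤ) (V2 : Matrix κ (Fin n) ℤ)
      (C : Matrix (Fin d) κ ℤ) (B : Matrix κ κ ℤ), U1 * V1 + U2 * V2 = 1 ∧ V1 * U1 = 1 ∧
      V1 * U2 = 0 ∧ V2 * U1 = 0 ∧ V2 * U2 = 1 ∧ V1 * A = V1 + C * V2 ∧ V2 * A = B * V2 ∧
      0 < (1 - B).det ∧ A.charpoly = (X - 1) ^ d * B.charpoly := by
  classical
  obtain ⟨d, snf⟩ := (LinearMap.ker (toLin' A - 1)).smithNormalForm (Pi.basisFun ℤ (Fin n))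
  let b := snf.bM.reindex ((Equiv.sumCongr snf.f.toEquivRange (Equiv.refl _)).trans
    (Equiv.Set.sumCompl (range snf.f))).symm
  have b1 : ∀ j, toLin' A (b (.inl j)) = b (.inl j) := fun j => by
    have h := (snf.bN j).2
    have h0 : snf.a j ≠ 0 := fun e => snf.bN.ne_zero j (Subtype.ext (by simp [snf.snf, e]))
    rw [snf.snf, LinearMap.mem_ker, map_smul, smul_eq_zero, or_iff_right h0] at h
    simpa [b, sub_eq_zero] using h
  have b2 : ∀ z, toLin' A z = z → ∀ j, b.repr z (.inr j) = 0 := fun z h j => by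
    rw [Module.Basis.repr_reindex_apply]
    exact snf.repr_eq_zero_of_notMem_range ⟨z, by simpa [sub_eq_zero] using h⟩ j.2
  set M := LinearMap.toMatrix b b (toLin' A) with hM
  have eM : M = fromBlocks 1 M.toBlocks₁₂ 0 M.toBlocks₂₂ := by
    ext (i | i) (j | j) <;>
      simp [hM, LinearMap.toMatrix_apply, b1, toBlocks₁₂, toBlocks₂₂, one_apply, Finsupp.single_apply,
        eq_comm, - toLin'_apply]
  generalize M.toBlocks₁₂ = C at eM
  generalize M.toBlocks₂₂ = B at eM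
  set U := (Pi.basisFun ℤ (Fin n)).toMatrix b
  set V := b.toMatrix (Pi.basisFun ℤ (Fin n)) with hV
  have e1 : U * V = 1 := Module.Basis.toMatrix_mul_toMatrix_flip _ _
  have e2 : V * U = 1 := Module.Basis.toMatrix_mul_toMatrix_flip _ _
  have e3 : V * A = M * V := by
    rw [hM, linearMap_toMatrix_mul_basis_toMatrix,
      ← basis_toMatrix_mul_linearMap_toMatrix (c' := Pi.basisFun ℤ (Fin n))]
    simp [hV]
  have pw : ∀ j : ℕ, ∃ C', M ^ j = fromBlocks 1 C' 0 (B ^ j) ∧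
      ∀ w, B *ᵥ w = w → C' *ᵥ w = j • (C *ᵥ w) := fun j => by
    induction j with
    | zero => exact ⟨0, by simp, by simp⟩
    | succ j ih =>
      obtain ⟨C', h1, h2⟩ := ih
      exact ⟨C + C' * B, by rw [pow_succ, h1, eM, fromBlocks_multiply]; simp [pow_succ],
        fun w h => by rw [add_mulVec, ← mulVec_mulVec, h, h2 w h, succ_nsmul']⟩
  obtain ⟨C', h1, h2⟩ := pw k
  rw [hM, LinearMap.toMatrix_pow, ← toLin'_pow, hA, toLin'_one, LinearMap.toMatrix_id,
    ← fromBlocks_one, fromBlocks_inj] at h1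
  have nz : (1 - B).det ≠ 0 := fun e => by
    obtain ⟨w, w0, hw⟩ := exists_mulVec_eq_zero_iff.2 e
    rw [sub_mulVec, one_mulVec, sub_eq_zero] at hw
    have c := h2 w hw.symm
    rw [← h1.2.1, zero_mulVec, eq_comm, smul_eq_zero, or_iff_right hk.ne'] at c
    have r : ∀ z, b.repr z = V *ᵥ z := fun z =>
      (Module.Basis.toMatrix_mulVec_repr (Pi.basisFun ℤ (Fin n)) b z).symm.trans
        (congrArg _ (funext (by simp)))
    have := b2 (U *ᵥ Sum.elim 0 w) (b.repr.injective (DFunLike.coe_injective (by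
      simp only [r, toLin'_apply, mulVec_mulVec, ← Matrix.mul_assoc, e3, e2]
      rw [Matrix.mul_assoc, e2, Matrix.mul_one, eM, fromBlocks_mulVec]
      simp [c, ← hw])))
    simp only [r, mulVec_mulVec, e2, one_mulVec, Sum.elim_inr] at this
    exact w0 (funext this)
  rw [← fromCols_toCols U, ← fromRows_toRows V] at e1 e2
  rw [← fromRows_toRows V, eM, fromRows_mul, fromBlocks_mul_fromRows, fromRows_ext_iff] at e3
  rw [fromRows_mul_fromCols, ← fromBlocks_one, fromBlocks_inj] at e2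
  rw [fromCols_mul_fromRows] at e1
  refine ⟨d, _, _, _, _, _, _, _, C, B, e1, e2.1, e2.2.1, e2.2.2.1, e2.2.2.2, by simpa using e3.1,
    by simpa using e3.2, ?_, ?_⟩
  · have e : (((1 - B).det : ℤ) : ℝ) = (1 - B.map (Int.cast : ℤ → ℝ)).det := by
      rw [Int.cast_det, Matrix.map_sub _ Int.cast_sub, Matrix.map_one _ Int.cast_zero Int.cast_one]
    have := det_pos (B.map (Int.cast : ℤ → ℝ)) hk (by
      refine (Matrix.map_pow B (Int.castRingHom ℝ) k).symm.trans ?_
      rw [← h1.2.2.2]; simp) (e ▸ Int.cast_ne_zero.2 nz)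
    exact_mod_cast e ▸ this
  · rw [← charpoly_toLin', ← LinearMap.charpoly_toMatrix _ b, ← hM, eM, charpoly_fromBlocks_zero₂₁,
      Matrix.charpoly_one, Fintype.card_fin]

end Pool.Agent.H.MP_c81765_co
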