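import Mathlib
import Pool.Agent.H.MP_c81765_co.A
import Pool.Agent.H.MP_c81765_co.B

namespace Pool.Agent.H.MP_c81765_co

open Matrix Polynomial Set Filter Topology MeasureTheory
open scoped Pointwise

def pts {n : ℕ} (s : Set (Fin n → ℝ)) (t : ℕ) : Set (Fin n → ℤ) := {v | (fun i => (v i : ℝ) / t) ∈ s}

theorem pts_lim {n : ℕ} {s : Set (Fin n → ℝ)} (hb : Bornology.IsBounded s) (hc : IsClosed s)
    (hv : Convex ℝ s) :
    Tendsto (fun t : ℕ => (Nat.card (pts s t) : ℝ) / t ^ n) atTop (𝓝 (volume.real s)) := by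
  refine (tendsto_card_div_pow_atTop_volume s hb hc.measurableSet
    (hv.addHaar_frontier volume)).congr' ?_
  filter_upwards [eventually_gt_atTop 0] with t ht
  have : NeZero t := ⟨ht.ne'⟩
  have ht' : (t : ℝ) ≠ 0 := by exact_mod_cast ht.ne'
  rw [Fintype.card_fin]
  congr 2
  refine (Nat.card_congr (Equiv.ofBijective (fun v : pts s t => (⟨fun i => (v.1 i : ℝ) / t, v.2,
    BoxIntegral.unitPartition.mem_smul_span_iff.2 fun i => ⟨v.1 i, by simp; field_simp⟩⟩ :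
    ↥(s ∩ (t : ℝ)⁻¹ • Submodule.span ℤ (Set.range (Pi.basisFun ℝ (Fin n)))))) ⟨?_, ?_⟩)).symm
  · intro v w h
    refine Subtype.ext (funext fun i => ?_)
    have := congrFun (congrArg Subtype.val h) i
    simpa [div_left_inj' ht'] using this
  · rintro ⟨x, hx, hx'⟩
    choose v hv using BoxIntegral.unitPartition.mem_smul_span_iff.1 hx'
    have e : (fun i => (v i : ℝ) / t) = x := funext fun i => by
      rw [div_eq_iff ht', mul_comm, ← hv i]; simp
    exact ⟨⟨v, by rw [pts, mem_setOf_eq, e]; exact hx⟩, Subtype.ext e⟩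

def ci {m : Type} (z : m → ℤ) : m → ℝ := fun i => z i

def cm {m n : Type} (M : Matrix m n ℤ) : Matrix m n ℝ := M.map Int.cast

lemma ci_mul {m n : Type} [Fintype n] (M : Matrix m n ℤ) (z : n → ℤ) :
    ci (M *ᵥ z) = cm M *ᵥ ci z := by ext i; simp [ci, cm, mulVec, dotProduct]

lemma cm_mul {l m n : Type} [Fintype m] (M : Matrix l m ℤ) (N : Matrix m n ℤ) :
    cm (M * N) = cm M * cm N := by ext i j; simp [cm, mul_apply]

lemma cm_add {m n : Type} (M N : Matrix m n ℤ) : cm (M + N) = cm M + cm N := by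
  ext i j; simp [cm]

lemma cm_one {m : Type} [DecidableEq m] : cm (1 : Matrix m m ℤ) = 1 := by simp [cm]

lemma cm_zero {m n : Type} : cm (0 : Matrix m n ℤ) = 0 := by simp [cm]

lemma ci_inj {m : Type} {z w : m → ℤ} (h : ci z = ci w) : z = w :=
  funext fun i => Int.cast_injective (congrFun h i)

lemma avg {n k : ℕ} (hk : 0 < k) (A : Matrix (Fin n) (Fin n) ℝ) (t : Fin n → ℝ)
    (h : (fun x => A *ᵥ x + t)^[k] = id) {P : Set (Fin n → ℝ)} (hP : Convex ℝ P)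
    (hm : ∀ x ∈ P, A *ᵥ x + t ∈ P) {x : Fin n → ℝ} (hx : x ∈ P) : ∃ y ∈ P, A *ᵥ y + t = y ∧
      ∀ {d : ℕ} (L : Matrix (Fin d) (Fin n) ℝ), (∀ x, L *ᵥ (A *ᵥ x + t) = L *ᵥ x) →
        L *ᵥ y = L *ᵥ x := by
  set φ := fun x => A *ᵥ x + t with hφ
  have k0 : (k : ℝ) ≠ 0 := by positivity
  refine ⟨∑ j ∈ Finset.range k, (k : ℝ)⁻¹ • φ^[j] x, hP.sum_mem (fun _ _ => by positivity)
    (by simp [k0]) fun j _ => MapsTo.iterate hm j hx, ?_, fun L hL => ?_⟩
  · have := (Finset.sum_range_succ (fun j => φ^[j] x) k).symm.trans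
      (Finset.sum_range_succ' (fun j => φ^[j] x) k)
    simp only [h, Function.iterate_zero, add_left_inj, Function.iterate_succ_apply'] at this
    rw [← Finset.smul_sum]
    conv_rhs => rw [this]
    simp [hφ, Finset.sum_add_distrib, mulVec_smul, mulVec_sum, ← Nat.cast_smul_eq_nsmul ℝ,
      smul_smul, k0]
  · have : ∀ j, L *ᵥ φ^[j] x = L *ᵥ x := fun j => by
      induction j with
      | zero => rfl
      | succ j ih => rw [Function.iterate_succ_apply', ← ih]; exact hL _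
    simp [mulVec_sum, mulVec_smul, this, ← Nat.cast_smul_eq_nsmul ℝ, smul_smul, k0]

lemma dvd_ind {κ : Type} (b : κ → ℝ) {m : ℤ} (h : ∃ w, ci w = (m : ℝ) • b) {i : ℕ}
    (hi : i = sInf {k : ℕ | 0 < k ∧ ∃ w, ci w = (k : ℝ) • b}) (h0 : 0 < i) : (i : ℤ) ∣ m := by
  obtain ⟨-, u, hu⟩ : i ∈ {k : ℕ | 0 < k ∧ ∃ w, ci w = (k : ℝ) • b} :=
    hi ▸ Nat.sInf_mem (Nat.nonempty_of_pos_sInf (hi ▸ h0))
  obtain ⟨w, hw⟩ := h
  obtain ⟨r, hr⟩ := Int.eq_ofNat_of_zero_le (Int.emod_nonneg m (by omega : (i : ℤ) ≠ 0))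
  have := Int.emod_lt_of_pos m (by omega : (0 : ℤ) < i)
  refine Int.dvd_of_emod_eq_zero (by_contra fun c => ?_)
  have : i ≤ r := hi ▸ Nat.sInf_le ⟨by omega, w - (m / i) • u, funext fun j => by
    have e : (m : ℝ) = i * (m / i : ℤ) + r := by
      exact_mod_cast (hr ▸ Int.mul_ediv_add_emod m i).symm
    have a := congrFun hu j
    have b := congrFun hw j
    simp only [ci, Pi.smul_apply, smul_eq_mul, Pi.sub_apply, Int.cast_sub, Int.cast_mul] at *
    rw [a, b]; rw [e]; ring⟩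
  omega

theorem core {n k : ℕ} (hk : 0 < k) (A : Matrix (Fin n) (Fin n) ℤ) (t : Fin n → ℤ) (hA : A ^ k = 1)
    (h : (fun x => cm A *ᵥ x + ci t)^[k] = id) (S : Finset (Fin n → ℤ)) (P : Set (Fin n → ℝ))
    (hP : P = convexHull ℝ (ci '' S)) (hT : affineSpan ℝ P = ⊤)
    (hm : ∀ x ∈ P, cm A *ᵥ x + ci t ∈ P) (Pg : Set (Fin n → ℝ))
    (hg : Pg = {x | x ∈ P ∧ cm A *ᵥ x + ci t = x}) (ind : ℕ)
    (hi : ind = sInf {k : ℕ | 0 < k ∧ ∃ z, ci z ∈ affineSpan ℝ ((k : ℝ) • Pg)}) (d : ℕ)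
    (hd : d = Module.finrank ℝ (affineSpan ℝ Pg).direction) (D : ℤ)
    (hD : D = eval 1 (A.charpoly /ₘ (X - C (1 : ℤ)) ^ A.charpoly.rootMultiplicity 1)) :
    ∃ N : ℕ, Tendsto (fun m : ℕ => (d.factorial : ℝ) * ((ncard {z | ci z ∈ ((m * ind : ℕ) : ℝ) • Pg} :
      ℝ) / ((m * ind : ℕ) : ℝ) ^ d) * D / ind) atTop (𝓝 N) := by
  obtain ⟨e, κ, _, _, U1, U2, V1, V2, C, B, z1, z2, z3, z4, z5, z6, z7, h8, h9⟩ := block A hk hA
  have eD : D = (1 - B).det := by
    have a : eval 1 B.charpoly = (1 - B).det := by simp [eval_charpoly]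
    rw [hD, h9, ← C_1, mul_comm, rootMultiplicity_mul_X_sub_C_pow (charpoly_monic _).ne_zero,
      rootMultiplicity_eq_zero (by rw [IsRoot, a]; exact h8.ne'), zero_add, mul_comm,
      mul_divByMonic_cancel_left _ ((monic_X_sub_C _).pow _), a]
  have h1 := congrArg cm z1
  have h2 := congrArg cm z2
  have h3 := congrArg cm z3
  have h4 := congrArg cm z4
  have h5 := congrArg cm z5
  have h6 := congrArg cm z6
  have h7 := congrArg cm z7
  simp only [cm_mul, cm_add, cm_one, cm_zero] at h1 h2 h3 h4 h5 h6 h7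
  have cP : Convex ℝ P := hP ▸ convex_convexHull _ _
  obtain ⟨x0, -, f0, -⟩ := avg hk _ _ h cP hm (AffineSubspace.nonempty_of_affineSpan_eq_top ℝ _ _
    hT).choose_spec
  obtain ⟨b0, hb0⟩ : ∃ b0, b0 = cm V2 *ᵥ x0 := ⟨_, rfl⟩
  obtain ⟨N, hN⟩ : ∃ N, N = 1 - cm B := ⟨_, rfl⟩
  have dN : N.det = D := by
    rw [eD, Int.cast_det, Matrix.map_sub _ Int.cast_sub, Matrix.map_one _ Int.cast_zero Int.cast_one,
      hN]
    rfl
  have D0 : 0 < D := eD ▸ h8
  have uN : IsUnit N.det := by rw [dN]; exact isUnit_iff_ne_zero.2 (by positivity)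
  have t1 : cm V1 *ᵥ ci t = -(cm C *ᵥ b0) := by
    have := congrArg (cm V1 *ᵥ ·) f0
    simp only [mulVec_add, mulVec_mulVec, h6, add_mulVec, hb0] at this ⊢
    linear_combination this
  have t2 : cm V2 *ᵥ ci t = N *ᵥ b0 := by
    have := congrArg (cm V2 *ᵥ ·) f0
    simp only [mulVec_add, mulVec_mulVec, h7] at this
    rw [hN, sub_mulVec, one_mulVec, hb0, mulVec_mulVec]
    linear_combination this
  have dec : ∀ x, cm U1 *ᵥ (cm V1 *ᵥ x) + cm U2 *ᵥ (cm V2 *ᵥ x) = x := fun x => by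
    rw [mulVec_mulVec, mulVec_mulVec, ← add_mulVec, h1, one_mulVec]
  have fx : ∀ x, cm A *ᵥ x + ci t = x ↔ cm V2 *ᵥ x = b0 := fun x => by
    refine ⟨fun a => ?_, fun a => ?_⟩
    · have := congrArg (cm V2 *ᵥ ·) a
      simp only [mulVec_add, mulVec_mulVec, h7, t2] at this
      have : N *ᵥ (cm V2 *ᵥ x) = N *ᵥ b0 := by
        rw [eq_sub_iff_add_eq'.2 this, hN, sub_mulVec, one_mulVec, mulVec_mulVec]
      simpa [mulVec_mulVec, ← Matrix.mul_assoc, nonsing_inv_mul _ uN] using congrArg (N⁻¹ *ᵥ ·) this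
    · rw [← dec (_ + _), mulVec_add (cm V1), mulVec_add (cm V2), t1, t2, mulVec_mulVec _ (cm V1),
        mulVec_mulVec _ (cm V2), h6, h7, add_mulVec, ← mulVec_mulVec, ← mulVec_mulVec, a, hN,
        sub_mulVec, one_mulVec, add_neg_cancel_right, add_sub_cancel, ← a, dec]
  obtain ⟨T, hT'⟩ : ∃ T, T = cm C * N⁻¹ := ⟨_, rfl⟩
  have TN : T * N = cm C := by rw [hT', Matrix.mul_assoc, nonsing_inv_mul _ uN, Matrix.mul_one]
  obtain ⟨L, hL⟩ : ∃ L, L = cm V1 + T * cm V2 := ⟨_, rfl⟩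
  have Li : ∀ x, L *ᵥ (cm A *ᵥ x + ci t) = L *ᵥ x := fun x => by
    have : L * cm A = L := by
      rw [hL, Matrix.add_mul, Matrix.mul_assoc, h6, h7, ← TN, hN, Matrix.mul_sub, Matrix.sub_mul,
        Matrix.mul_one, Matrix.mul_assoc]
      abel
    rw [mulVec_add, mulVec_mulVec, this, hL, add_mulVec _ _ (ci t), ← mulVec_mulVec, t1, t2,
      mulVec_mulVec, TN]
    simp
  let π : (Fin n → ℝ) →ᵃ[ℝ] (Fin e → ℝ) := (toLin' L).toAffineMap - AffineMap.const ℝ _ (T *ᵥ b0)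
  let Ψ : (Fin e → ℝ) →ᵃ[ℝ] (Fin n → ℝ) :=
    (toLin' (cm U1)).toAffineMap + AffineMap.const ℝ _ (cm U2 *ᵥ b0)
  have π0 : ∀ x, π x = L *ᵥ x - T *ᵥ b0 := fun _ => rfl
  have Ψ0 : ∀ x, Ψ x = cm U1 *ᵥ x + cm U2 *ᵥ b0 := fun _ => rfl
  have Ψ1 : ∀ a, cm V1 *ᵥ Ψ a = a := fun a => by simp [Ψ0, mulVec_add, h2, h3]
  have Ψ2 : ∀ a, cm V2 *ᵥ Ψ a = b0 := fun a => by simp [Ψ0, mulVec_add, h4, h5]
  have πΨ : ∀ x, cm V2 *ᵥ x = b0 → Ψ (π x) = x := fun x a => by
    rw [π0, hL, add_mulVec, ← mulVec_mulVec, a, add_sub_cancel_right, Ψ0, ← a, dec]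
  have eg : Pg = Ψ '' (π '' P) := by
    rw [hg]
    refine subset_antisymm (fun x a => ⟨_, ⟨x, a.1, rfl⟩, πΨ x ((fx x).1 a.2)⟩) ?_
    rintro _ ⟨_, ⟨x, a, rfl⟩, rfl⟩
    obtain ⟨y, b, c, f⟩ := avg hk _ _ h cP hm a
    rw [π0, ← f L Li, ← π0, πΨ y ((fx y).1 c)]
    exact ⟨b, c⟩
  have sp : ∀ c : ℝ, affineSpan ℝ (c • Pg) = AffineSubspace.map (c • Ψ.comp π) ⊤ := fun c => by
    rw [← hT, AffineSubspace.map_span, eg, image_image, ← image_smul, image_image]; rfl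
  have ms : ∀ c : ℝ, c ≠ 0 → ∀ z, z ∈ affineSpan ℝ (c • Pg) ↔ cm V2 *ᵥ z = c • b0 := fun c hc z => by
    rw [sp, AffineSubspace.mem_map]
    refine ⟨?_, fun a => ⟨c⁻¹ • z, trivial, ?_⟩⟩
    · rintro ⟨x, -, rfl⟩
      exact (mulVec_smul _ c (Ψ (π x))).trans (congrArg _ (Ψ2 _))
    · change c • Ψ (π _) = z
      rw [πΨ _ (by rw [mulVec_smul, a, inv_smul_smul₀ hc]), smul_inv_smul₀ hc]
  have hi' : ind = sInf {k : ℕ | 0 < k ∧ ∃ w, ci w = (k : ℝ) • b0} := by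
    rw [hi]; congr 1; ext k
    refine and_congr_right fun a => ?_
    simp only [ms k (by positivity)]
    exact ⟨fun ⟨z, b⟩ => ⟨_, (ci_mul _ _).trans b⟩, fun ⟨w, b⟩ => ⟨U2 *ᵥ w, by
      rw [← ci_mul, mulVec_mulVec, z5, one_mulVec, b]⟩⟩
  have adj : ∀ {m : Type} [Fintype m] [DecidableEq m] (G : Matrix m m ℤ) (y : m → ℝ) (w : m → ℤ),
      cm G *ᵥ y = ci w → ci (G.adjugate *ᵥ w) = (G.det : ℝ) • y := fun G y w a => by
    rw [ci_mul, ← a, mulVec_mulVec, ← cm_mul, adjugate_mul]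
    rw [show cm (G.det • 1) = (G.det : ℝ) • (1 : Matrix _ _ ℝ) by
      ext i j; simp only [cm, map_apply, Matrix.smul_apply, one_apply, smul_eq_mul]; simp,
      smul_mulVec, one_mulVec]
  obtain ⟨i0, w0, hw0⟩ : ind ∈ {k : ℕ | 0 < k ∧ ∃ w, ci w = (k : ℝ) • b0} := by
    rw [hi']
    refine Nat.sInf_mem ⟨D.toNat, by omega, _, (adj (1 - B) b0 (V2 *ᵥ t) ?_).trans ?_⟩
    · rw [ci_mul, t2, hN]; congr 1; ext i j; simp [cm, one_apply]
    · rw [← eD, ← Int.cast_natCast, Int.toNat_of_nonneg D0.le]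
  obtain rfl : d = e := by
    have l : ∀ a, L *ᵥ (cm U1 *ᵥ a) = a := fun a => by
      simp [hL, Matrix.add_mul, Matrix.mul_assoc, h2, h4]
    rw [hd, ← one_smul ℝ Pg, sp, AffineSubspace.map_direction, AffineSubspace.direction_top,
      one_smul, AffineMap.comp_linear, Submodule.map_comp, Submodule.map_top,
      LinearMap.range_eq_top.2 fun a => ⟨cm U1 *ᵥ a, by simpa [π] using l a⟩, Submodule.map_top,
      LinearMap.finrank_range_of_inj fun a b c => by simpa [Ψ, h2] using congrArg (cm V1 *ᵥ ·) c]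
    simp
  let z : Fin S.card → Fin n → ℤ := fun i => S.equivFin.symm i
  have eQ : π '' P = convexHull ℝ (range fun i => π (ci (z i))) := by
    rw [hP, AffineMap.image_convexHull, image_image]
    congr 1
    exact (image_eq_range _ _).trans (S.equivFin.symm.surjective.range_comp _).symm
  obtain ⟨F, hF⟩ := triang fun i => π (ci (z i))
  have cpt := (finite_range fun i => π (ci (z i))).isCompact_convexHull ℝ
  have lim := (pts_lim cpt.isBounded cpt.isClosed (convex_convexHull _ _)).comp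
    (tendsto_id.atTop_mul_const' i0)
  rw [← eQ] at lim hF
  have dv : ∀ v, ∃ c : ℕ, |(DM (fun i => π (ci (z i))) v).det| * D / ind = c := fun v => by
    let Z : Matrix (Fin n) (Fin d) ℤ := of fun i j => z (v j.succ) i - z (v 0) i
    let G := fromBlocks (V1 * Z) (-C) (V2 * Z) (1 - B)
    have cG : cm G = fromBlocks (cm V1 * cm Z) (-cm C) (cm V2 * cm Z) N := by
      rw [← cm_mul, ← cm_mul]
      ext (i | i) (j | j) <;> simp [G, cm, hN, one_apply]
    have a : (G.det : ℝ) = D * (DM (fun i => π (ci (z i))) v).det := by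
      have := invertibleOfIsUnitDet N uN
      rw [Int.cast_det]
      refine (congrArg det cG).trans ?_
      rw [det_fromBlocks₂₂, dN, invOf_eq_nonsing_inv, Matrix.neg_mul, Matrix.neg_mul,
        sub_neg_eq_add, ← hT', ← Matrix.mul_assoc, ← Matrix.add_mul, ← hL]
      congr 2
      ext i j
      simp [DM, π0, mul_apply, mulVec, dotProduct, Z, cm, ci, mul_sub]
    have b := adj G (Sum.elim 0 b0) (Sum.elim (V1 *ᵥ t) (V2 *ᵥ t)) (by
      rw [cG, fromBlocks_mulVec]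
      simp only [Sum.elim_comp_inl, Sum.elim_comp_inr, mulVec_zero, zero_add, neg_mulVec, ← t1,
        ← t2, ← ci_mul]
      ext (i | i) <;> rfl)
    obtain ⟨c, hc⟩ := dvd_ind b0 (m := G.det) ⟨_, congrArg (· ∘ Sum.inr) b⟩ hi' i0
    refine ⟨c.natAbs, ?_⟩
    have := congrArg abs a
    rw [hc, abs_mul, abs_of_pos (show (0 : ℝ) < D by positivity)] at this
    rw [mul_comm, ← this, div_eq_iff (by positivity)]
    simp [abs_mul, mul_comm]
  choose c hc using dv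
  refine ⟨∑ v ∈ F, c v, ?_⟩
  rw [Nat.cast_sum, ← Finset.sum_congr rfl fun v _ => hc v, ← Finset.sum_div, ← Finset.sum_mul, ← hF]
  refine (((lim.const_mul _).mul_const _).div_const _).congr' ?_
  filter_upwards [eventually_gt_atTop 0] with m m0
  have p : ((m * ind : ℕ) : ℝ) ≠ 0 := by positivity
  simp only [Function.comp, id]
  congr 5
  rw [Nat.card_coe_set_eq, ← ncard_image_of_injective _ (f := fun a => U1 *ᵥ a + m • (U2 *ᵥ w0))
    fun a b c => by simpa [z2] using congrArg (V1 *ᵥ ·) (add_right_cancel c)]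
  congr 1
  have k : ∀ a, ci (U1 *ᵥ a + m • (U2 *ᵥ w0)) =
      ((m * ind : ℕ) : ℝ) • Ψ (fun i => (a i : ℝ) / (m * ind : ℕ)) := fun a => by
    rw [Ψ0, smul_add, ← mulVec_smul (cm U1), show ((m * ind : ℕ) : ℝ) • (fun i => (a i : ℝ) /
      (m * ind : ℕ)) = ci a from funext fun i => mul_div_cancel₀ _ p, ← ci_mul, Nat.cast_mul,
      mul_smul, ← mulVec_smul _ (ind : ℝ), ← hw0, ← ci_mul]
    ext i; simp only [ci, Pi.add_apply, Pi.smul_apply, smul_eq_mul]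
    rw [nsmul_eq_mul]; push_cast; rfl
  ext y
  simp only [mem_image, mem_setOf_eq, eg]
  refine ⟨?_, fun ⟨_, ⟨a, b, e1⟩, e2⟩ => ?_⟩
  · rintro ⟨a, b, rfl⟩
    exact k a ▸ smul_mem_smul_set ⟨_, b, rfl⟩
  · have e3 : (fun i => ((V1 *ᵥ y) i : ℝ) / (m * ind : ℕ)) = a := by
      have := ci_mul V1 y
      rw [← e2, mulVec_smul, ← e1, Ψ1] at this
      ext i
      rw [div_eq_iff p, mul_comm]
      exact congrFun this i
    exact ⟨V1 *ᵥ y, by rwa [pts, mem_setOf_eq, e3], ci_inj (by rw [k, e3, e1]; exact e2)⟩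

end Pool.Agent.H.MP_c81765_co
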